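import Pool.Agent.H18.Ex.Defs

/-!
# Taylor coefficients at a moving point; the differential lemma for a subspace of any codimension

`tcr q a b` is the `b`-th Taylor (Hasse) coefficient of the monomial `x^a` at the point `q`.
-/

namespace Pool.Agent.H54.V7

open Finset Pool.Agent.H18.Ex

/-! ### Composition of Taylor expansions -/

theorem choose_comp {R : Type*} [CommRing R] (q r : R) (m b N : ℕ) (hN : m < N) :
    ((m.choose b : ℕ) : R) * (q + r) ^ (m - b) =
      ∑ e ∈ range N, (((m.choose e : ℕ) : R) * q ^ (m - e)) *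
        (((e.choose b : ℕ) : R) * r ^ (e - b)) := by
  by_cases hb : b ≤ m
  · obtain ⟨k, rfl⟩ := Nat.exists_eq_add_of_le hb
    have h1 : ∑ e ∈ range N, ((((b + k).choose e : ℕ) : R) * q ^ (b + k - e)) *
        (((e.choose b : ℕ) : R) * r ^ (e - b)) =
        ∑ e ∈ Ico b (b + k + 1), ((((b + k).choose e : ℕ) : R) * q ^ (b + k - e)) *
        (((e.choose b : ℕ) : R) * r ^ (e - b)) := by
      symm
      refine sum_subset ?_ ?_
      · intro e he
        rw [mem_Ico] at he
        rw [mem_range]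
        omega
      · intro e _ he
        rw [mem_Ico] at he
        by_cases h : e < b
        · rw [Nat.choose_eq_zero_of_lt h, Nat.cast_zero, zero_mul, mul_zero]
        · rw [Nat.choose_eq_zero_of_lt (show b + k < e by omega), Nat.cast_zero, zero_mul, zero_mul]
    rw [h1, sum_Ico_eq_sum_range]
    have h2 : b + k + 1 - b = k + 1 := by omega
    have h3 : b + k - b = k := by omega
    rw [h2, h3, add_comm q r, add_pow, mul_sum]
    refine sum_congr rfl fun s hs => ?_
    rw [mem_range] at hs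
    have h4 : b + s - b = s := by omega
    have h5 : b + k - (b + s) = k - s := by omega
    have h6 : (b + k).choose (b + s) * (b + s).choose b = (b + k).choose b * k.choose s := by
      rw [Nat.choose_mul (show b ≤ b + s by omega), h3, h4]
    rw [h4, h5]
    have h7 : (((b + k).choose (b + s) : ℕ) : R) * (((b + s).choose b : ℕ) : R) =
        (((b + k).choose b : ℕ) : R) * ((k.choose s : ℕ) : R) := by
      rw [← Nat.cast_mul, h6, Nat.cast_mul]
    calc (((b + k).choose b : ℕ) : R) * (r ^ s * q ^ (k - s) * ((k.choose s : ℕ) : R)) =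
        ((((b + k).choose b : ℕ) : R) * ((k.choose s : ℕ) : R)) * (q ^ (k - s) * r ^ s) := by ring
      _ = ((((b + k).choose (b + s) : ℕ) : R) * (((b + s).choose b : ℕ) : R)) *
          (q ^ (k - s) * r ^ s) := by rw [h7]
      _ = _ := by ring
  · rw [Nat.choose_eq_zero_of_lt (show m < b by omega), Nat.cast_zero, zero_mul]
    symm
    refine sum_eq_zero fun e _ => ?_
    by_cases h : e < b
    · rw [Nat.choose_eq_zero_of_lt h, Nat.cast_zero, zero_mul, mul_zero]
    · rw [Nat.choose_eq_zero_of_lt (show m < e by omega), Nat.cast_zero, zero_mul, zero_mul]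

section

set_option linter.unusedSectionVars false

variable {ι : Type} [Fintype ι] [DecidableEq ι]

/-- The box of exponents below `N`. -/
def bx (ι : Type) [Fintype ι] [DecidableEq ι] (N : ℕ) : Finset (ι → ℕ) :=
  Fintype.piFinset fun _ => range N

theorem mem_bx {N : ℕ} {e : ι → ℕ} : e ∈ bx ι N ↔ ∀ i, e i < N := by
  unfold bx
  rw [Fintype.mem_piFinset]
  simp only [mem_range]

/-- Taylor expansion in two steps. -/
theorem tcr_add {R : Type*} [CommRing R] (q r : ι → R) (m b : ι → ℕ) (N : ℕ)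
    (hN : ∀ i, m i < N) :
    tcr (fun i => q i + r i) m b = ∑ e ∈ bx ι N, tcr q m e * tcr r e b := by
  unfold tcr bx
  have h1 : ∀ i ∈ (univ : Finset ι), (((m i).choose (b i) : ℕ) : R) * (q i + r i) ^ (m i - b i) =
      ∑ e ∈ range N, ((((m i).choose e : ℕ) : R) * q i ^ (m i - e)) *
        (((e.choose (b i) : ℕ) : R) * r i ^ (e - b i)) :=
    fun i _ => choose_comp (q i) (r i) (m i) (b i) N (hN i)
  rw [prod_congr rfl h1, prod_univ_sum]
  refine sum_congr rfl fun e _ => ?_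
  rw [prod_mul_distrib]

/-- A Taylor coefficient at a multiple of a point. -/
theorem tcr_smul {R : Type*} [CommRing R] (s : R) (r : ι → R) (e b : ι → ℕ) (h : ∀ i, b i ≤ e i) :
    tcr (fun i => s * r i) e b = s ^ (∑ i, e i - ∑ i, b i) * tcr r e b := by
  unfold tcr
  have h1 : ∑ i, e i - ∑ i, b i = ∑ i, (e i - b i) := by
    have h2 : ∑ i, (e i - b i) + ∑ i, b i = ∑ i, e i := by
      rw [← sum_add_distrib]
      exact sum_congr rfl fun i _ => by have := h i; omega
    omega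
  rw [h1, ← prod_pow_eq_pow_sum, ← prod_mul_distrib]
  refine prod_congr rfl fun i _ => ?_
  rw [mul_pow]
  ring

theorem tcr_eq_zero {R : Type*} [CommRing R] (r : ι → R) (e b : ι → ℕ) (h : ¬ ∀ i, b i ≤ e i) :
    tcr r e b = 0 := by
  push Not at h
  obtain ⟨i, hi⟩ := h
  unfold tcr
  refine prod_eq_zero (mem_univ i) ?_
  rw [Nat.choose_eq_zero_of_lt hi, Nat.cast_zero, zero_mul]

theorem tcr_self {R : Type*} [CommRing R] (r : ι → R) (e b : ι → ℕ) (h : ∀ i, b i ≤ e i)
    (h2 : ∑ i, e i ≤ ∑ i, b i) : tcr r e b = if e = b then 1 else 0 := by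
  have h3 : e = b := by
    have h4 : ∑ i, b i ≤ ∑ i, e i := sum_le_sum fun i _ => h i
    have h5 : ∀ i ∈ (univ : Finset ι), b i = e i :=
      (sum_eq_sum_iff_of_le fun i _ => h i).1 (le_antisymm h4 h2)
    exact funext fun i => (h5 i (mem_univ i)).symm
  rw [if_pos h3, h3]
  unfold tcr
  refine prod_eq_one fun i _ => ?_
  rw [Nat.choose_self, Nat.cast_one, Nat.sub_self, pow_zero, one_mul]

/-! ### A form depending on `t` which vanishes to order `M` at the moving point `p + t v` -/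

open Polynomial

variable {K : Type*} [CommRing K] {E : Type*}

/-- The moving point `p + t v`. -/
noncomputable def mv (p v : ι → K) : ι → K[X] := fun i => C (p i) + X * C (v i)

/-- The Taylor coefficients of the form `F_t` at the moving point. -/
noncomputable def mH (A : Finset E) (ex : E → ι → ℕ) (F : E → K[X]) (p v : ι → K) (b : ι → ℕ) : K[X] :=
  ∑ m ∈ A, F m * tcr (mv p v) (ex m) b

/-- The Taylor coefficients of the form `F_t` at the fixed point `p`. -/
noncomputable def mG (A : Finset E) (ex : E → ι → ℕ) (F : E → K[X]) (p : ι → K) (b : ι → ℕ) : K[X] :=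
  ∑ m ∈ A, F m * tcr (fun i => C (p i)) (ex m) b

theorem mG_eq (A : Finset E) (ex : E → ι → ℕ) (F : E → K[X]) (p v : ι → K) (a : ι → ℕ) (N : ℕ)
    (hN : ∀ m ∈ A, ∀ i, ex m i < N) :
    mG A ex F p a = ∑ b ∈ bx ι N, mH A ex F p v b * tcr (fun i => (-X) * C (v i)) b a := by
  unfold mG mH
  simp only [sum_mul]
  rw [sum_comm]
  refine sum_congr rfl fun m hm => ?_
  have h1 : tcr (fun i => C (p i)) (ex m) a =
      tcr (fun i => mv p v i + (-X) * C (v i)) (ex m) a := by
    congr 1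
    funext i
    unfold mv
    ring
  rw [h1, tcr_add _ _ (ex m) a N (hN m hm), mul_sum]
  refine sum_congr rfl fun b _ => ?_
  ring

theorem tcr_C (v : ι → K) (b a : ι → ℕ) : tcr (fun i => C (v i)) b a = C (tcr v b a) := by
  unfold tcr
  rw [map_prod]
  refine prod_congr rfl fun i _ => ?_
  rw [map_mul, map_pow, map_natCast]

theorem eval_tcr_mv (p v : ι → K) (m b : ι → ℕ) : (tcr (mv p v) m b).eval 0 = tcr p m b := by
  unfold tcr mv
  rw [eval_prod]
  refine prod_congr rfl fun i _ => ?_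
  simp

theorem eval_mH (A : Finset E) (ex : E → ι → ℕ) (F : E → K[X]) (p v : ι → K) (b : ι → ℕ) :
    (mH A ex F p v b).eval 0 = ∑ m ∈ A, (F m).eval 0 * tcr p (ex m) b := by
  unfold mH
  rw [eval_finsetSum]
  refine sum_congr rfl fun m _ => ?_
  rw [eval_mul, eval_tcr_mv]

/-- The exponents of total degree `M` in the box. -/
def bxd (ι : Type) [Fintype ι] [DecidableEq ι] (N M : ℕ) : Finset (ι → ℕ) :=
  (bx ι N).filter fun e => ∑ i, e i = M

/-- If `F_t` vanishes to order `M` at `p + t v`, then its `a`-th Taylor coefficient at `p` is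
`(-t)^(M - |a|)` times (the derivative of order `M - |a|` of it in the direction `v` plus a multiple
of `t`). -/
theorem mG_expand (A : Finset E) (ex : E → ι → ℕ) (F : E → K[X]) (p v : ι → K) (a : ι → ℕ) (N M : ℕ)
    (hN : ∀ m ∈ A, ∀ i, ex m i < N) (hF : ∀ b : ι → ℕ, ∑ i, b i < M → mH A ex F p v b = 0)
    (ha : ∑ i, a i ≤ M) :
    ∃ R : K[X], mG A ex F p a = (-X) ^ (M - ∑ i, a i) *
      (∑ b ∈ bxd ι N M, mH A ex F p v b * C (tcr v b a) + X * R) := by
  have h1 : ∀ b ∈ bx ι N, ∃ R : K[X], mH A ex F p v b * tcr (fun i => (-X) * C (v i)) b a =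
      (-X) ^ (M - ∑ i, a i) *
        ((if ∑ i, b i = M then mH A ex F p v b * C (tcr v b a) else 0) + X * R) := by
    intro b _
    by_cases hb : ∑ i, b i < M
    · refine ⟨0, ?_⟩
      rw [hF b hb, zero_mul, if_neg (by omega), mul_zero, add_zero, mul_zero]
    · by_cases hab : ∀ i, a i ≤ b i
      · rw [tcr_smul _ _ _ _ hab, tcr_C]
        by_cases hb2 : ∑ i, b i = M
        · refine ⟨0, ?_⟩
          rw [if_pos hb2, hb2]
          ring
        · refine ⟨-(mH A ex F p v b * ((-X) ^ (∑ i, b i - M - 1) * C (tcr v b a))), ?_⟩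
          rw [if_neg hb2]
          have h2 : ∑ i, b i - ∑ i, a i = (M - ∑ i, a i) + 1 + (∑ i, b i - M - 1) := by omega
          rw [h2, pow_add, pow_add]
          ring
      · refine ⟨0, ?_⟩
        rw [tcr_eq_zero _ _ _ hab, tcr_eq_zero _ _ _ hab]
        simp
  choose! R hR using h1
  refine ⟨∑ b ∈ bx ι N, R b, ?_⟩
  rw [mG_eq A ex F p v a N hN, sum_congr rfl hR, ← mul_sum, sum_add_distrib, mul_sum]
  congr 2
  unfold bxd
  rw [sum_filter]

/-- (DH1) The value at `p` of `F_t` is divisible by `t^M`. -/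
theorem dh_value (A : Finset E) (ex : E → ι → ℕ) (F : E → K[X]) (p v : ι → K) (M : ℕ)
    (hF : ∀ b : ι → ℕ, ∑ i, b i < M → mH A ex F p v b = 0) :
    X ^ M ∣ mG A ex F p 0 := by
  obtain ⟨N, hN⟩ : ∃ N, ∀ m ∈ A, ∀ i, ex m i < N := by
    refine ⟨(∑ m ∈ A, ∑ i, ex m i) + 1, fun m hm i => ?_⟩
    have h1 : ex m i ≤ ∑ i, ex m i :=
      single_le_sum (f := ex m) (fun _ _ => Nat.zero_le _) (mem_univ i)
    have h2 : ∑ i, ex m i ≤ ∑ m ∈ A, ∑ i, ex m i :=
      single_le_sum (f := fun m => ∑ i, ex m i) (fun _ _ => Nat.zero_le _) hm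
    omega
  obtain ⟨R, hR⟩ := mG_expand A ex F p v 0 N M hN hF (by simp)
  have h0 : ∑ i : ι, (0 : ι → ℕ) i = 0 := by simp
  rw [hR, h0, Nat.sub_zero, neg_pow, mul_assoc]
  exact Dvd.dvd.mul_left (dvd_mul_right _ _) _

/-- (DH2) If the `a`-th Taylor coefficient of `F_t` at `p` is divisible by `t^(M - |a| + 1)`, then
the derivative of order `M - |a|` in the direction `v` of the `a`-th derivative of `F_0` vanishes
at `p`. -/
theorem dh_deriv (A : Finset E) (ex : E → ι → ℕ) (F : E → K[X]) (p v : ι → K) (a : ι → ℕ) (N M : ℕ)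
    (hN : ∀ m ∈ A, ∀ i, ex m i < N) (hF : ∀ b : ι → ℕ, ∑ i, b i < M → mH A ex F p v b = 0)
    (ha : ∑ i, a i ≤ M) (hdiv : X ^ (M - ∑ i, a i + 1) ∣ mG A ex F p a) :
    ∑ b ∈ bxd ι N M, tcr v b a * ∑ m ∈ A, (F m).eval 0 * tcr p (ex m) b = 0 := by
  obtain ⟨R, hR⟩ := mG_expand A ex F p v a N M hN hF ha
  obtain ⟨Q, hQ⟩ := hdiv
  rw [hQ] at hR
  have h1 : X ^ (M - ∑ i, a i) * (X * Q) = X ^ (M - ∑ i, a i) * ((-1) ^ (M - ∑ i, a i) *
      (∑ b ∈ bxd ι N M, mH A ex F p v b * C (tcr v b a) + X * R)) := by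
    rw [neg_pow] at hR
    calc X ^ (M - ∑ i, a i) * (X * Q) = X ^ (M - ∑ i, a i + 1) * Q := by ring
      _ = _ := hR
      _ = _ := by ring
  have h2 : X * Q = (-1) ^ (M - ∑ i, a i) *
      (∑ b ∈ bxd ι N M, mH A ex F p v b * C (tcr v b a) + X * R) := by
    have h3 : IsLeftRegular ((X : K[X]) ^ (M - ∑ i, a i)) :=
      (Polynomial.monic_X_pow _).isRegular.left
    exact h3 h1
  have h3 := congrArg (Polynomial.eval 0) h2
  rw [eval_mul, eval_X, zero_mul, eval_mul, eval_add, eval_mul, eval_X, zero_mul, add_zero,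
    eval_finsetSum] at h3
  have h4 : ((-1 : K[X]) ^ (M - ∑ i, a i)).eval 0 * ((-1 : K[X]) ^ (M - ∑ i, a i)).eval 0 = 1 := by
    rw [← eval_mul, ← mul_pow]
    simp
  have h5 : ∑ b ∈ bxd ι N M, eval 0 (mH A ex F p v b * C (tcr v b a)) = 0 := by
    calc ∑ b ∈ bxd ι N M, eval 0 (mH A ex F p v b * C (tcr v b a)) =
        (((-1 : K[X]) ^ (M - ∑ i, a i)).eval 0 * ((-1 : K[X]) ^ (M - ∑ i, a i)).eval 0) *
          ∑ b ∈ bxd ι N M, eval 0 (mH A ex F p v b * C (tcr v b a)) := by rw [h4, one_mul]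
      _ = ((-1 : K[X]) ^ (M - ∑ i, a i)).eval 0 * 0 := by rw [mul_assoc, ← h3]
      _ = 0 := mul_zero _
  refine Eq.trans ?_ h5
  refine sum_congr rfl fun b _ => ?_
  rw [eval_mul, eval_C, eval_mH]
  ring

/-! ### A form which vanishes to order `M` in `t` on the subspace `x_i = 0` (`i ∈ B`) -/

/-- A Taylor coefficient along the subspace `x_i = 0` (`i ∈ B`) of a monomial which vanishes on it,
at a point of it. -/
theorem tcr_off {R : Type*} [CommRing R] (B : Finset ι) (p : ι → R) (hp : ∀ i ∈ B, p i = 0)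
    (m a : ι → ℕ) (ha : ∀ i ∈ B, a i = 0) (hm : ¬ ∀ i ∈ B, m i = 0) : tcr p m a = 0 := by
  push Not at hm
  obtain ⟨i, hi, hm⟩ := hm
  unfold tcr
  refine prod_eq_zero (mem_univ i) ?_
  rw [hp i hi, ha i hi, Nat.sub_zero, zero_pow hm, mul_zero]

/-- The lower coefficients of the trace of `F_t` vanish at `p`. -/
theorem dh_trace (A : Finset E) (ex : E → ι → ℕ) (F : E → K[X]) (B : Finset ι) (p v : ι → K)
    (hp : ∀ i ∈ B, p i = 0) (M : ℕ) (hF : ∀ b : ι → ℕ, ∑ i, b i < M → mH A ex F p v b = 0)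
    (j : ℕ) (hj : j < M) :
    ∑ m ∈ A.filter (fun m => ∀ i ∈ B, ex m i = 0), (F m).coeff j * tcr p (ex m) 0 = 0 := by
  have h1 := (X_pow_dvd_iff.1 (dh_value A ex F p v M hF)) j hj
  unfold mG at h1
  rw [finsetSum_coeff] at h1
  rw [← h1, sum_filter]
  refine sum_congr rfl fun m _ => ?_
  rw [tcr_C, coeff_mul_C]
  split_ifs with h
  · rfl
  · rw [tcr_off B p hp (ex m) 0 (fun _ _ => rfl) h, mul_zero]

/-- The additional conditions on `F_0` at `p`. -/
theorem dh_swap (A : Finset E) (ex : E → ι → ℕ) (F : E → K[X]) (B : Finset ι) (p v : ι → K)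
    (hp : ∀ i ∈ B, p i = 0) (M N : ℕ) (hN : ∀ m ∈ A, ∀ i, ex m i < N)
    (hF : ∀ b : ι → ℕ, ∑ i, b i < M → mH A ex F p v b = 0)
    (htr : ∀ m ∈ A, (∀ i ∈ B, ex m i = 0) → X ^ M ∣ F m)
    (a : ι → ℕ) (haB : ∀ i ∈ B, a i = 0) (ha1 : 1 ≤ ∑ i, a i) (ha : ∑ i, a i ≤ M) :
    ∑ b ∈ bxd ι N M, tcr v b a * ∑ m ∈ A, (F m).eval 0 * tcr p (ex m) b = 0 := by
  refine dh_deriv A ex F p v a N M hN hF ha ?_
  refine (pow_dvd_pow X (show M - ∑ i, a i + 1 ≤ M by omega)).trans ?_
  unfold mG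
  refine dvd_sum fun m hm => ?_
  by_cases h : ∀ i ∈ B, ex m i = 0
  · exact (htr m hm h).mul_right _
  · rw [tcr_C, tcr_off B p hp (ex m) a haB h, C_0, mul_zero]
    exact dvd_zero _

/-- `F_0` vanishes to order `M` at `p`. -/
theorem dh_fat (A : Finset E) (ex : E → ι → ℕ) (F : E → K[X]) (p v : ι → K) (M : ℕ)
    (hF : ∀ b : ι → ℕ, ∑ i, b i < M → mH A ex F p v b = 0) (b : ι → ℕ) (hb : ∑ i, b i < M) :
    ∑ m ∈ A, (F m).eval 0 * tcr p (ex m) b = 0 := by
  rw [← eval_mH A ex F p v b, hF b hb, eval_zero]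

end

end Pool.Agent.H54.V7
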