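import Pool.Agent.H18.Ex.OnePar
import Pool.Agent.H54.V7.DH

/-!
# The limit of the solution spaces of a linear system depending on one parameter
-/

namespace Pool.Agent.H54.V7

open Finset Polynomial Pool.Agent.H18.Ex

/-- A subspace is cut out by finitely many linear equations. -/
theorem exists_eqns {E : Type} [Fintype E] (W : Submodule ℂ (E → ℂ)) :
    ∃ (k : ℕ) (c : Fin k → E → ℂ), ∀ f : E → ℂ, f ∈ W ↔ ∀ r, ∑ e, c r e * f e = 0 := by
  classical
  obtain ⟨k, b⟩ : ∃ k, Nonempty (((E → ℂ) ⧸ W) ≃ₗ[ℂ] (Fin k → ℂ)) :=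
    ⟨Module.finrank ℂ ((E → ℂ) ⧸ W), ⟨(Module.finBasis ℂ ((E → ℂ) ⧸ W)).equivFun⟩⟩
  obtain ⟨b⟩ := b
  let L : (E → ℂ) →ₗ[ℂ] (Fin k → ℂ) := b.toLinearMap ∘ₗ W.mkQ
  refine ⟨k, fun r e => L (Pi.single e 1) r, fun f => ?_⟩
  have h1 : ∀ r, ∑ e, L (Pi.single e 1) r * f e = L f r := by
    intro r
    have h2 : f = ∑ e, f e • (Pi.single e (1 : ℂ) : E → ℂ) := by
      funext x
      rw [Finset.sum_apply]
      simp [Pi.single_apply]
    conv_rhs => rw [h2, map_sum]
    rw [Finset.sum_apply]
    refine sum_congr rfl fun e _ => ?_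
    rw [map_smul, Pi.smul_apply, smul_eq_mul, mul_comm]
  simp only [h1]
  constructor
  · intro hf r
    have h3 : L f = 0 := by
      show b (W.mkQ f) = 0
      rw [(Submodule.Quotient.mk_eq_zero W).2 hf |> fun h => (show W.mkQ f = 0 from h), map_zero]
    rw [h3]
    rfl
  · intro h
    have h3 : L f = 0 := funext h
    have h4 : W.mkQ f = 0 := by
      apply b.injective
      rw [map_zero]
      exact h3
    exact (Submodule.Quotient.mk_eq_zero W).1 h4

/-- Finitely many linear forms which are injective on a subspace. -/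
theorem exists_coords {E : Type} [Fintype E] (R : Submodule ℂ (E → ℂ)) :
    ∃ c : Fin (Module.finrank ℂ R) → E → ℂ,
      ∀ f ∈ R, (∀ r, ∑ e, c r e * f e = 0) → f = 0 := by
  classical
  obtain ⟨g, hg⟩ := LinearMap.exists_leftInverse_of_injective R.subtype (by
    rw [Submodule.ker_subtype])
  let L : (E → ℂ) →ₗ[ℂ] (Fin (Module.finrank ℂ R) → ℂ) :=
    (Module.finBasis ℂ R).equivFun.toLinearMap ∘ₗ g
  refine ⟨fun r e => L (Pi.single e 1) r, fun f hf h => ?_⟩
  have h1 : ∀ r, ∑ e, L (Pi.single e 1) r * f e = L f r := by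
    intro r
    have h2 : f = ∑ e, f e • (Pi.single e (1 : ℂ) : E → ℂ) := by
      funext x
      rw [Finset.sum_apply]
      simp [Pi.single_apply]
    conv_rhs => rw [h2, map_sum]
    rw [Finset.sum_apply]
    refine sum_congr rfl fun e _ => ?_
    rw [map_smul, Pi.smul_apply, smul_eq_mul, mul_comm]
  have h3 : L f = 0 := by
    funext r
    rw [← h1 r]
    exact h r
  have h4 : g f = 0 := by
    apply (Module.finBasis ℂ R).equivFun.injective
    rw [map_zero]
    exact h3
  have h5 : g f = ⟨f, hf⟩ := by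
    have h6 := LinearMap.congr_fun hg ⟨f, hf⟩
    exact h6
  rw [h5] at h4
  exact congrArg Subtype.val h4

/-- The solutions of a linear system at the value `t` of the parameter. -/
noncomputable def solAt {E ρ : Type} [Fintype E] (Mx : ρ → E → ℂ[X]) (t : ℂ) :
    Submodule ℂ (E → ℂ) where
  carrier := {f | ∀ r, ∑ e, f e * (Mx r e).eval t = 0}
  zero_mem' := fun r => by simp
  add_mem' := by
    intro f g hf hg r
    have h1 := hf r
    have h2 := hg r
    simp only [Pi.add_apply, add_mul, sum_add_distrib]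
    rw [h1, h2, add_zero]
  smul_mem' := by
    intro c f hf r
    have h1 := hf r
    have h2 : ∑ e, (c • f) e * (Mx r e).eval t = c * ∑ e, f e * (Mx r e).eval t := by
      rw [mul_sum]
      exact sum_congr rfl fun e _ => by rw [Pi.smul_apply, smul_eq_mul, mul_assoc]
    rw [h2, h1, mul_zero]

theorem mem_solAt {E ρ : Type} [Fintype E] (Mx : ρ → E → ℂ[X]) (t : ℂ) (f : E → ℂ) :
    f ∈ solAt Mx t ↔ ∀ r, ∑ e, f e * (Mx r e).eval t = 0 := Iff.rfl

/-- If the values at `t = 0` of all polynomial solutions lie in `R`, then for some `t` the space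
of solutions at `t` has at most the dimension of `R`. -/
theorem poly_limit {E ρ : Type} [Fintype E] [Fintype ρ] (Mx : ρ → E → ℂ[X])
    (R : Submodule ℂ (E → ℂ))
    (hR : ∀ F : E → ℂ[X], (∀ r, ∑ e, F e * Mx r e = 0) → (fun e => (F e).eval 0) ∈ R) :
    ∃ t : ℂ, Module.finrank ℂ (solAt Mx t) ≤ Module.finrank ℂ R := by
  classical
  by_contra hcon
  push Not at hcon
  obtain ⟨c, hc⟩ := exists_coords R
  let Mx' : ρ ⊕ Fin (Module.finrank ℂ R) → E → ℂ[X] :=
    Sum.elim Mx fun r e => C (c r e)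
  obtain ⟨F, hF, e, _, he⟩ := exists_poly_solution (univ : Finset E) Mx' (by
    intro t
    let L : (E → ℂ) →ₗ[ℂ] (Fin (Module.finrank ℂ R) → ℂ) :=
      LinearMap.pi fun r => ∑ e, c r e • LinearMap.proj e
    have hL : ∀ f r, L f r = ∑ e, c r e * f e := by
      intro f r
      simp [L]
    let L' : solAt Mx t →ₗ[ℂ] (Fin (Module.finrank ℂ R) → ℂ) := L ∘ₗ (solAt Mx t).subtype
    have h1 : LinearMap.ker L' ≠ ⊥ := by
      intro h
      have h2 := LinearMap.finrank_le_finrank_of_injective (LinearMap.ker_eq_bot.1 h)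
      rw [Module.finrank_fin_fun] at h2
      exact absurd h2 (not_le.2 (hcon t))
    obtain ⟨f, hf, hf0⟩ := (Submodule.ne_bot_iff _).1 h1
    refine ⟨f.1, ?_, ?_⟩
    · rintro (r | r)
      · exact f.2 r
      · have h3 : L f.1 = 0 := hf
        have h4 := congrFun h3 r
        rw [hL] at h4
        show ∑ e, f.1 e * (C (c r e)).eval t = 0
        rw [Pi.zero_apply] at h4
        rw [← h4]
        exact sum_congr rfl fun e _ => by rw [eval_C, mul_comm]
    · by_contra h3
      push Not at h3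
      apply hf0
      apply Subtype.ext
      funext e
      exact h3 e (mem_univ e))
  have h1 : (fun e => (F e).eval 0) ∈ R := hR F fun r => hF (Sum.inl r)
  have h2 := hc _ h1 (by
    intro r
    have h3 := congrArg (Polynomial.eval 0) (hF (Sum.inr r))
    rw [eval_finsetSum, eval_zero] at h3
    refine Eq.trans ?_ h3
    refine sum_congr rfl fun e _ => ?_
    show c r e * (F e).eval 0 = (F e * C (c r e)).eval 0
    rw [eval_mul, eval_C, mul_comm])
  exact he (congrFun h2 e)

section

set_option linter.unusedSectionVars false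

variable {ι : Type} [Fintype ι] [DecidableEq ι] {E : Type} [Fintype E]

/-- `f` vanishes to order `M` at `q`. -/
def Fat (ex : E → ι → ℕ) (M : ℕ) (q : ι → ℂ) (f : E → ℂ) : Prop :=
  ∀ b : ι → ℕ, ∑ i, b i < M → ∑ e, f e * tcr q (ex e) b = 0

/-- The additional conditions: the derivative of order `M - |a|` in the direction `v` of the
`a`-th derivative of `f` vanishes at `p`, for all `a` along the subspace `x_i = 0` (`i ∈ B`) with
`1 ≤ |a| ≤ M`. -/
def Sw (ex : E → ι → ℕ) (M N : ℕ) (B : Finset ι) (p v : ι → ℂ) (f : E → ℂ) : Prop :=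
  ∀ a : ι → ℕ, (∀ i ∈ B, a i = 0) → 1 ≤ ∑ i, a i → ∑ i, a i ≤ M →
    ∑ b ∈ bxd ι N M, tcr v b a * ∑ e, f e * tcr p (ex e) b = 0

/-- The forms of `W` which vanish to order `M` at the points `q s`. -/
def fatSub {κ : Type} (W : Submodule ℂ (E → ℂ)) (ex : E → ι → ℕ) (M : ℕ) (q : κ → ι → ℂ) :
    Submodule ℂ (E → ℂ) where
  carrier := {f | f ∈ W ∧ ∀ s, Fat ex M (q s) f}
  zero_mem' := ⟨W.zero_mem, fun s b _ => by simp⟩
  add_mem' := by
    intro f g hf hg
    refine ⟨W.add_mem hf.1 hg.1, fun s b hb => ?_⟩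
    simp only [Pi.add_apply, add_mul, sum_add_distrib]
    rw [hf.2 s b hb, hg.2 s b hb, add_zero]
  smul_mem' := by
    intro c f hf
    refine ⟨W.smul_mem c hf.1, fun s b hb => ?_⟩
    have h2 : ∑ e, (c • f) e * tcr (q s) (ex e) b = c * ∑ e, f e * tcr (q s) (ex e) b := by
      rw [mul_sum]
      exact sum_congr rfl fun e _ => by rw [Pi.smul_apply, smul_eq_mul, mul_assoc]
    rw [h2, hf.2 s b hb, mul_zero]

/-- The residual system. -/
def resSub {κ : Type} (W : Submodule ℂ (E → ℂ)) (ex : E → ι → ℕ) (M N : ℕ) (B : Finset ι)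
    (p v : κ → ι → ℂ) : Submodule ℂ (E → ℂ) where
  carrier := {f | f ∈ W ∧ (∀ e, (∀ i ∈ B, ex e i = 0) → f e = 0) ∧ (∀ s, Fat ex M (p s) f) ∧
    ∀ s, Sw ex M N B (p s) (v s) f}
  zero_mem' := ⟨W.zero_mem, fun e _ => rfl, fun s b _ => by simp, fun s a _ _ _ => by simp⟩
  add_mem' := by
    intro f g hf hg
    refine ⟨W.add_mem hf.1 hg.1, fun e he => ?_, fun s b hb => ?_, fun s a ha h1 h2 => ?_⟩
    · rw [Pi.add_apply, hf.2.1 e he, hg.2.1 e he, add_zero]
    · simp only [Pi.add_apply, add_mul, sum_add_distrib]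
      rw [hf.2.2.1 s b hb, hg.2.2.1 s b hb, add_zero]
    · simp only [Pi.add_apply, add_mul, sum_add_distrib, mul_add]
      rw [hf.2.2.2 s a ha h1 h2, hg.2.2.2 s a ha h1 h2, add_zero]
  smul_mem' := by
    intro c f hf
    have h2 : ∀ (q : ι → ℂ) (b : ι → ℕ), ∑ e, (c • f) e * tcr q (ex e) b =
        c * ∑ e, f e * tcr q (ex e) b := by
      intro q b
      rw [mul_sum]
      exact sum_congr rfl fun e _ => by rw [Pi.smul_apply, smul_eq_mul, mul_assoc]
    refine ⟨W.smul_mem c hf.1, fun e he => ?_, fun s b hb => ?_, fun s a ha h3 h4 => ?_⟩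
    · rw [Pi.smul_apply, hf.2.1 e he, smul_zero]
    · rw [h2, hf.2.2.1 s b hb, mul_zero]
    · have h5 : ∑ b ∈ bxd ι N M, tcr (v s) b a * ∑ e, (c • f) e * tcr (p s) (ex e) b =
          c * ∑ b ∈ bxd ι N M, tcr (v s) b a * ∑ e, f e * tcr (p s) (ex e) b := by
        rw [mul_sum]
        refine sum_congr rfl fun b _ => ?_
        rw [h2]
        ring
      rw [h5, hf.2.2.2 s a ha h3 h4, mul_zero]

theorem eval_tcr_mv_gen (p v : ι → ℂ) (t : ℂ) (m b : ι → ℕ) :
    (tcr (mv p v) m b).eval t = tcr (fun i => p i + t * v i) m b := by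
  unfold tcr mv
  rw [eval_prod]
  refine prod_congr rfl fun i _ => ?_
  rw [eval_mul, eval_natCast, eval_pow, eval_add, eval_mul, eval_C, eval_C, eval_X]

/-- **The differential Horace lemma** for a subspace `x_i = 0` (`i ∈ B`) of any codimension, with
simple trace.  `W` is the system of the fixed conditions; the points `p s + t v s` of multiplicity
`M` move, with `p s` on the subspace.  If a form of `W` whose trace vanishes at all `p s` has trace
zero, then for some `t` the system has at most the dimension of the residual system. -/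
theorem dh_step {κ : Type} [Fintype κ] (ex : E → ι → ℕ) (M N : ℕ) (hM : 1 ≤ M) (hN : ∀ e i, ex e i < N)
    (B : Finset ι) (W : Submodule ℂ (E → ℂ)) (p v : κ → ι → ℂ) (hp : ∀ s, ∀ i ∈ B, p s i = 0)
    (htr : ∀ f ∈ W, (∀ s, ∑ e ∈ univ.filter (fun e => ∀ i ∈ B, ex e i = 0),
      f e * tcr (p s) (ex e) 0 = 0) → ∀ e, (∀ i ∈ B, ex e i = 0) → f e = 0) :
    ∃ t : ℂ, Module.finrank ℂ (fatSub W ex M fun s i => p s i + t * v s i) ≤
      Module.finrank ℂ (resSub W ex M N B p v) := by
  classical
  obtain ⟨k, c, hc⟩ := exists_eqns W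
  let Mx : Fin k ⊕ (κ × (ι → Fin M)) → E → ℂ[X] := Sum.elim (fun r e => C (c r e))
    fun r e => if ∑ i, (r.2 i : ℕ) < M then
      tcr (mv (p r.1) (v r.1)) (ex e) (fun i => (r.2 i : ℕ)) else 0
  have hlt : ∀ b : ι → ℕ, ∑ i, b i < M → ∀ i, b i < M := by
    intro b hb i
    have h1 : b i ≤ ∑ i, b i := single_le_sum (f := b) (fun _ _ => Nat.zero_le _) (mem_univ i)
    omega
  obtain ⟨t, ht⟩ := poly_limit Mx (resSub W ex M N B p v) (by
    intro F hF
    -- the coefficients lie in `W`
    have hW : ∀ j, (fun e => (F e).coeff j) ∈ W := by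
      intro j
      rw [hc]
      intro r
      have h1 := congrArg (fun q : ℂ[X] => q.coeff j) (hF (Sum.inl r))
      rw [coeff_zero, finsetSum_coeff] at h1
      refine Eq.trans ?_ h1
      refine sum_congr rfl fun e _ => ?_
      show c r e * (F e).coeff j = (F e * C (c r e)).coeff j
      rw [coeff_mul_C, mul_comm]
    have hH : ∀ s, ∀ b : ι → ℕ, ∑ i, b i < M → mH univ ex F (p s) (v s) b = 0 := by
      intro s b hb
      have h1 := hF (Sum.inr (s, fun i => ⟨b i, hlt b hb i⟩))
      refine Eq.trans ?_ h1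
      unfold mH
      refine sum_congr rfl fun e _ => ?_
      show F e * tcr (mv (p s) (v s)) (ex e) b = F e * (if ∑ i, b i < M then
        tcr (mv (p s) (v s)) (ex e) (fun i => b i) else 0)
      rw [if_pos hb]
    have h0 : ∀ j < M, ∀ e, (∀ i ∈ B, ex e i = 0) → (F e).coeff j = 0 := by
      intro j hj
      refine htr _ (hW j) fun s => ?_
      exact dh_trace univ ex F B (p s) (v s) (hp s) M (hH s) j hj
    have hdvd : ∀ e ∈ (univ : Finset E), (∀ i ∈ B, ex e i = 0) → X ^ M ∣ F e := by
      intro e _ he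
      rw [X_pow_dvd_iff]
      intro j hj
      exact h0 j hj e he
    refine ⟨?_, ?_, ?_, ?_⟩
    · have h1 := hW 0
      simpa only [coeff_zero_eq_eval_zero] using h1
    · intro e he
      have h1 := h0 0 (by omega) e he
      rw [coeff_zero_eq_eval_zero] at h1
      exact h1
    · intro s b hb
      exact dh_fat univ ex F (p s) (v s) M (hH s) b hb
    · intro s a ha h1 h2
      exact dh_swap univ ex F B (p s) (v s) (hp s) M N (fun e _ => hN e) (hH s) hdvd a ha h1 h2)
  refine ⟨t, le_trans (le_of_eq ?_) ht⟩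
  have h1 : fatSub W ex M (fun s i => p s i + t * v s i) = solAt Mx t := by
    ext f
    rw [mem_solAt]
    constructor
    · rintro ⟨hf, hf2⟩ (r | ⟨s, b⟩)
      · have h2 := (hc f).1 hf r
        refine Eq.trans ?_ h2
        refine sum_congr rfl fun e _ => ?_
        show f e * (C (c r e)).eval t = c r e * f e
        rw [eval_C, mul_comm]
      · by_cases hb : ∑ i, (b i : ℕ) < M
        · have h2 := hf2 s (fun i => (b i : ℕ)) hb
          refine Eq.trans ?_ h2
          refine sum_congr rfl fun e _ => ?_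
          show f e * (if ∑ i, (b i : ℕ) < M then
            tcr (mv (p s) (v s)) (ex e) (fun i => (b i : ℕ)) else 0).eval t = _
          rw [if_pos hb, eval_tcr_mv_gen]
        · refine sum_eq_zero fun e _ => ?_
          show f e * (if ∑ i, (b i : ℕ) < M then
            tcr (mv (p s) (v s)) (ex e) (fun i => (b i : ℕ)) else 0).eval t = _
          rw [if_neg hb, eval_zero, mul_zero]
    · intro h
      refine ⟨(hc f).2 fun r => ?_, fun s b hb => ?_⟩
      · refine Eq.trans ?_ (h (Sum.inl r))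
        refine sum_congr rfl fun e _ => ?_
        show c r e * f e = f e * (C (c r e)).eval t
        rw [eval_C, mul_comm]
      · refine Eq.trans ?_ (h (Sum.inr (s, fun i => ⟨b i, hlt b hb i⟩)))
        refine sum_congr rfl fun e _ => ?_
        show _ = f e * (if ∑ i, b i < M then
          tcr (mv (p s) (v s)) (ex e) (fun i => b i) else 0).eval t
        rw [if_pos hb, eval_tcr_mv_gen]
  rw [h1]

end

end Pool.Agent.H54.V7
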