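import Pool.Agent.H54.V7.Cnt

/-!
# The numbers of conditions of an ordinary and of a swapped point
-/

namespace Pool.Agent.H54.V7

open Finset Pool.Agent.H18.Ex

section

set_option linter.unusedSectionVars false

variable {ι : Type} [Fintype ι] [DecidableEq ι] {κ : Type} [DecidableEq κ] {E : Type} [Fintype E]
  (ex : E → ι → ℕ)

/-- The vanishing to order `M` at a point of the subspace given by the blocks of `I` follows from
the Taylor coefficients of order `M - 1` which meet the blocks of `I`. -/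
theorem fat_of_mset (d M : ℕ) (hM : 1 ≤ M) (hMd : M ≤ d) (hE : ∀ e, ∑ i, ex e i = d)
    (blk : κ → Finset ι) (I : Finset κ) (hI : ∀ k ∈ I, ∀ e, ¬ ∀ x ∈ blk k, ex e x = 0)
    (p : ι → ℂ) (hp : ∀ k ∈ I, ∀ x ∈ blk k, p x = 0) (f : E → ℂ)
    (h : ∀ b ∈ mset blk univ I (M - 1), TC ex f p b = 0) : Fat ex M p f := by
  rw [fat_iff]
  intro b hb
  refine TC_lower ex d hE f p (M - 1) (by omega) ?_ b (by omega)
  intro b hb
  by_cases h1 : ∀ k ∈ I, ¬ ∀ x ∈ blk k, b x = 0
  · exact h b (mem_mset.2 ⟨⟨hb, fun x _ => mem_univ x⟩, h1⟩)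
  · push Not at h1
    obtain ⟨k, hk, h1⟩ := h1
    exact TC_miss ex (blk k) (hI k hk) f p (hp k hk) b h1

/-- The coefficients of a swapped condition. -/
noncomputable def swc (N M : ℕ) (p v : ι → ℂ) (a : ι → ℕ) (e : E) : ℂ :=
  ∑ b ∈ bxd ι N M, tcr v b a * tcr p (ex e) b

theorem swc_sum (N M : ℕ) (f : E → ℂ) (p v : ι → ℂ) (a : ι → ℕ) :
    ∑ e, swc ex N M p v a e * f e = SC ex N M f p v a := by
  unfold swc SC TC
  simp only [sum_mul, mul_sum]
  rw [sum_comm]
  refine sum_congr rfl fun b _ => sum_congr rfl fun e _ => ?_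
  ring

theorem tc_sum (f : E → ℂ) (p : ι → ℂ) (b : ι → ℕ) :
    ∑ e, tcr p (ex e) b * f e = TC ex f p b := by
  unfold TC
  exact sum_congr rfl fun e _ => mul_comm _ _

/-- The number of conditions of an ordinary point. -/
theorem fat_card (d M c : ℕ) (hM : 1 ≤ M) (hMd : M ≤ d) (hE : ∀ e, ∑ i, ex e i = d)
    (blk : κ → Finset ι) (I : Finset κ) (hI : ∀ k ∈ I, ∀ e, ¬ ∀ x ∈ blk k, ex e x = 0)
    (hc : ∀ k ∈ I, (blk k).card = c) (hd : ∀ k ∈ I, ∀ l ∈ I, k ≠ l → Disjoint (blk k) (blk l))
    (p : ι → ℂ) (hp : ∀ k ∈ I, ∀ x ∈ blk k, p x = 0) (V V' : Submodule ℂ (E → ℂ))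
    (h : ∀ f ∈ V, Fat ex M p f → f ∈ V') :
    Module.finrank ℂ V ≤ Module.finrank ℂ V' + bbc c (M - 1) I.card (Fintype.card ι) := by
  have h1 := finrank_le_add V V' (mset blk univ I (M - 1)) (fun b e => tcr p (ex e) b) (by
    intro f hf h2
    refine h f hf (fat_of_mset ex d M hM hMd hE blk I hI p hp f fun b hb => ?_)
    rw [← tc_sum]
    exact h2 b hb)
  rw [card_mset blk c (M - 1) I univ (fun k hk => ⟨subset_univ _, hc k hk⟩) hd, card_univ] at h1
  exact h1

/-- The number of conditions of a swapped point. -/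
theorem sw_card (d M N c : ℕ) (hM : 1 ≤ M) (hMd : M ≤ d) (hN : d < N)
    (hE : ∀ e, ∑ i, ex e i = d)
    (blk : κ → Finset ι) (I : Finset κ) (i : κ) (hiI : i ∉ I)
    (hI : ∀ k ∈ insert i I, ∀ e, ¬ ∀ x ∈ blk k, ex e x = 0)
    (hc : ∀ k ∈ insert i I, (blk k).card = c)
    (hd : ∀ k ∈ insert i I, ∀ l ∈ insert i I, k ≠ l → Disjoint (blk k) (blk l))
    (p v : ι → ℂ) (hp : ∀ k ∈ insert i I, ∀ x ∈ blk k, p x = 0)
    (hv : ∀ k ∈ I, ∀ x ∈ blk k, v x = 0) (s₀ : ι) (hs₀ : ∀ k ∈ insert i I, s₀ ∉ blk k)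
    (hps : p s₀ ≠ 0) (V V' : Submodule ℂ (E → ℂ))
    (h : ∀ f ∈ V, Fat ex M p f → Sw ex M N (blk i) p v f → f ∈ V') :
    Module.finrank ℂ V ≤ Module.finrank ℂ V' +
      (bbc c (M - 1) I.card (Fintype.card ι) - if I = ∅ then 1 else 0) := by
  classical
  have hii : i ∈ insert i I := mem_insert_self i I
  set T : Finset (ι → ℕ) := mset blk (univ \ blk i) I (M - 1) with hT
  have hIne : ∀ a : ι → ℕ, a ∈ T ↔ (∑ x, a x = M - 1 ∧ ∀ x ∈ blk i, a x = 0) ∧
      ∀ k ∈ I, ¬ ∀ x ∈ blk k, a x = 0 := by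
    intro a
    rw [hT, mem_mset]
    constructor
    · rintro ⟨⟨h1, h2⟩, h3⟩
      refine ⟨⟨h1, fun x hx => ?_⟩, h3⟩
      by_contra h4
      exact (mem_sdiff.1 (h2 x h4)).2 hx
    · rintro ⟨⟨h1, h2⟩, h3⟩
      refine ⟨⟨h1, fun x hx => ?_⟩, h3⟩
      rw [mem_sdiff]
      exact ⟨mem_univ x, fun h4 => hx (h2 x h4)⟩
  set T' : Finset (ι → ℕ) := if I = ∅ then T.erase (Pi.single s₀ (M - 1)) else T with hT'
  have hcardT' : T'.card = T.card - if I = ∅ then 1 else 0 := by
    rw [hT']
    split_ifs with h1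
    · refine card_erase_of_mem ?_
      rw [hIne]
      refine ⟨⟨?_, fun x hx => ?_⟩, fun k hk => ?_⟩
      · rw [sum_pi_single']
        simp
      · have h2 : x ≠ s₀ := fun h3 => hs₀ i hii (h3 ▸ hx)
        rw [Pi.single_eq_of_ne h2]
      · rw [h1] at hk
        exact absurd hk (notMem_empty k)
    · rfl
  have h1 := finrank_le_add V V' ((mset blk univ (insert i I) (M - 1)).disjSum T')
    (Sum.elim (fun b e => tcr p (ex e) b) fun a e => swc ex N M p v (Function.update a s₀ 0) e) (by
    intro f hf h2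
    have hfat : Fat ex M p f :=
      fat_of_mset ex d M hM hMd hE blk (insert i I) hI p hp f fun b hb => by
        rw [← tc_sum]
        exact h2 (Sum.inl b) (inl_mem_disjSum.2 hb)
    refine h f hf hfat ?_
    rw [sw_iff]
    intro a ha h3 h4
    rcases Nat.lt_or_ge (∑ x, a x) M with h5 | h5
    · refine SC_reduce ex d N M hE hN hMd f p v (blk i) (hp i hii) s₀ (hs₀ i hii) hps
        ((fat_iff ex M p f).1 hfat) ?_ a ha h3 h5
      clear ha h3 h4 h5 a
      intro a ha h6 h3 h5
      by_cases h7 : ∀ k ∈ I, ¬ ∀ x ∈ blk k, a x = 0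
      · set a' : ι → ℕ := Function.update a s₀ (M - 1 - ∑ x, a x) with ha'
        have h8 : ∑ x, a' x = M - 1 := by
          rw [ha', ← add_sum_erase univ _ (mem_univ s₀), Function.update_self]
          have h9 : ∑ x ∈ univ.erase s₀, Function.update a s₀ (M - 1 - ∑ x, a x) x = ∑ x, a x := by
            rw [← add_sum_erase univ a (mem_univ s₀), h6, zero_add]
            exact sum_congr rfl fun x hx => by rw [Function.update_of_ne (ne_of_mem_erase hx)]
          rw [h9]
          omega
        have h9 : a' ∈ T := by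
          rw [hIne]
          refine ⟨⟨h8, fun x hx => ?_⟩, fun k hk h10 => h7 k hk fun x hx => ?_⟩
          · have h2 : x ≠ s₀ := fun h3 => hs₀ i hii (h3 ▸ hx)
            rw [ha', Function.update_of_ne h2]
            exact ha x hx
          · have h2 : x ≠ s₀ := fun h3 => hs₀ k (mem_insert_of_mem hk) (h3 ▸ hx)
            have h11 := h10 x hx
            rwa [ha', Function.update_of_ne h2] at h11
        have h10 : Function.update a' s₀ 0 = a := by
          rw [ha', Function.update_idem, ← h6, Function.update_eq_self]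
        have h11 : a' ∈ T' := by
          rw [hT']
          split_ifs with h12
          · refine mem_erase.2 ⟨?_, h9⟩
            intro h13
            rw [h13] at h10
            have h14 : a = 0 := by
              rw [← h10]
              funext x
              by_cases hx : x = s₀
              · subst hx
                rw [Function.update_self]
                rfl
              · rw [Function.update_of_ne hx, Pi.single_eq_of_ne hx]
                rfl
            rw [h14] at h3
            simp at h3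
          · exact h9
        have h12 := h2 (Sum.inr a') (inr_mem_disjSum.2 h11)
        have h13 : ∑ e, swc ex N M p v (Function.update a' s₀ 0) e * f e = 0 := h12
        rw [h10, swc_sum] at h13
        exact h13
      · push Not at h7
        obtain ⟨k, hk, h7⟩ := h7
        exact SC_miss ex N M (blk k) (hI k (mem_insert_of_mem hk)) f p v
          (hp k (mem_insert_of_mem hk)) (hv k hk) a h7
    · exact SC_top ex N M f p v a (by omega)
        (TC_miss ex (blk i) (hI i hii) f p (hp i hii) a ha))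
  rw [card_disjSum, hcardT'] at h1
  have h2 := card_mset_insert blk univ I i (M - 1)
  have h3 := card_mset blk c (M - 1) I univ
    (fun k hk => ⟨subset_univ _, hc k (mem_insert_of_mem hk)⟩)
    (fun k hk l hl => hd k (mem_insert_of_mem hk) l (mem_insert_of_mem hl))
  rw [card_univ] at h3
  rw [← hT] at h2
  have h4 : (if I = ∅ then 1 else 0) ≤ T.card := by
    split_ifs with h5
    · refine card_pos.2 ⟨Pi.single s₀ (M - 1), ?_⟩
      rw [hIne]
      refine ⟨⟨?_, fun x hx => ?_⟩, fun k hk => ?_⟩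
      · rw [sum_pi_single']
        simp
      · have h2 : x ≠ s₀ := fun h3 => hs₀ i hii (h3 ▸ hx)
        rw [Pi.single_eq_of_ne h2]
      · rw [h5] at hk
        exact absurd hk (notMem_empty k)
    · exact Nat.zero_le _
  omega

end

end Pool.Agent.H54.V7
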