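import Pool.Agent.H54.V7.Lim

/-!
# Euler relations for Taylor coefficients and for the swapped conditions
-/

namespace Pool.Agent.H54.V7

open Finset Pool.Agent.H18.Ex

section

set_option linter.unusedSectionVars false

variable {ι : Type} [Fintype ι] [DecidableEq ι] {E : Type} [Fintype E] (ex : E → ι → ℕ)

/-- The `b`-th Taylor coefficient of the form `f` at `p`. -/
noncomputable def TC (f : E → ℂ) (p : ι → ℂ) (b : ι → ℕ) : ℂ := ∑ e, f e * tcr p (ex e) b

/-- The `a`-th swapped condition: the derivative of order `m - |a|` in the direction `v` of the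
`a`-th derivative of `f`, at `p`. -/
noncomputable def SC (N m : ℕ) (f : E → ℂ) (p v : ι → ℂ) (a : ι → ℕ) : ℂ :=
  ∑ b ∈ bxd ι N m, tcr v b a * TC ex f p b

theorem tcr_split {R : Type*} [CommRing R] (q : ι → R) (a b : ι → ℕ) (l : ι) :
    tcr q a b = (((a l).choose (b l) : ℕ) : R) * q l ^ (a l - b l) *
      ∏ i ∈ univ.erase l, (((a i).choose (b i) : ℕ) : R) * q i ^ (a i - b i) := by
  unfold tcr
  rw [mul_prod_erase univ (fun i => (((a i).choose (b i) : ℕ) : R) * q i ^ (a i - b i))
    (mem_univ l)]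

theorem eul_num {R : Type*} [CommRing R] (A B : ℕ) (x : R) :
    ((B + 1 : ℕ) : R) * x * (((A.choose (B + 1) : ℕ) : R) * x ^ (A - (B + 1))) =
      ((A : R) - (B : R)) * (((A.choose B : ℕ) : R) * x ^ (A - B)) := by
  rcases lt_trichotomy B A with h | h | h
  · have h1 : A - B = (A - (B + 1)) + 1 := by omega
    have h2 := Nat.choose_succ_right_eq A B
    have h3 : ((A.choose (B + 1) : ℕ) : R) * ((B + 1 : ℕ) : R) =
        ((A.choose B : ℕ) : R) * ((A : R) - (B : R)) := by
      rw [← Nat.cast_sub h.le, ← Nat.cast_mul, ← Nat.cast_mul, h2]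
    rw [h1, pow_succ]
    calc ((B + 1 : ℕ) : R) * x * (((A.choose (B + 1) : ℕ) : R) * x ^ (A - (B + 1))) =
        (((A.choose (B + 1) : ℕ) : R) * ((B + 1 : ℕ) : R)) * (x ^ (A - (B + 1)) * x) := by ring
      _ = _ := by
        rw [h3]
        ring
  · subst h
    rw [Nat.choose_succ_self, Nat.cast_zero, zero_mul, mul_zero, sub_self, zero_mul]
  · rw [Nat.choose_eq_zero_of_lt h, Nat.choose_eq_zero_of_lt (h.trans (Nat.lt_succ_self B)),
      Nat.cast_zero]
    ring

theorem eul_one {R : Type*} [CommRing R] (q : ι → R) (α β : ι → ℕ) (l : ι) :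
    ((β l + 1 : ℕ) : R) * q l * tcr q α (β + Pi.single l 1) =
      ((α l : R) - (β l : R)) * tcr q α β := by
  rw [tcr_split q α (β + Pi.single l 1) l, tcr_split q α β l]
  have h1 : (β + Pi.single l 1 : ι → ℕ) l = β l + 1 := by simp
  have h2 : ∏ i ∈ univ.erase l, (((α i).choose ((β + Pi.single l 1 : ι → ℕ) i) : ℕ) : R) *
      q i ^ (α i - (β + Pi.single l 1 : ι → ℕ) i) =
      ∏ i ∈ univ.erase l, (((α i).choose (β i) : ℕ) : R) * q i ^ (α i - β i) := by
    refine prod_congr rfl fun i hi => ?_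
    rw [Pi.add_apply, Pi.single_eq_of_ne (ne_of_mem_erase hi), Nat.add_zero]
  rw [h2, h1]
  have h3 := eul_num (α l) (β l) (q l)
  linear_combination (∏ i ∈ univ.erase l, (((α i).choose (β i) : ℕ) : R) * q i ^ (α i - β i)) * h3

/-- Euler's relation for the Taylor coefficients of a form of degree `d`. -/
theorem euler_TC (d : ℕ) (hE : ∀ e, ∑ i, ex e i = d) (f : E → ℂ) (p : ι → ℂ) (b : ι → ℕ) :
    ∑ k, ((b k + 1 : ℕ) : ℂ) * p k * TC ex f p (b + Pi.single k 1) =
      ((d : ℂ) - ((∑ i, b i : ℕ) : ℂ)) * TC ex f p b := by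
  unfold TC
  simp only [mul_sum]
  rw [sum_comm]
  refine sum_congr rfl fun e _ => ?_
  have h1 : ∀ k ∈ (univ : Finset ι), ((b k + 1 : ℕ) : ℂ) * p k *
      (f e * tcr p (ex e) (b + Pi.single k 1)) =
      f e * ((((ex e k : ℕ) : ℂ) - ((b k : ℕ) : ℂ)) * tcr p (ex e) b) := by
    intro k _
    rw [← eul_one p (ex e) b k]
    ring
  rw [sum_congr rfl h1, ← mul_sum, ← sum_mul, sum_sub_distrib, ← Nat.cast_sum, ← Nat.cast_sum, hE]
  ring

/-- If the Taylor coefficients of order exactly `m < d` vanish, then so do those of lower order. -/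
theorem TC_lower (d : ℕ) (hE : ∀ e, ∑ i, ex e i = d) (f : E → ℂ) (p : ι → ℂ) (m : ℕ) (hm : m < d)
    (h : ∀ b : ι → ℕ, ∑ i, b i = m → TC ex f p b = 0) :
    ∀ b : ι → ℕ, ∑ i, b i ≤ m → TC ex f p b = 0 := by
  have key : ∀ k, k ≤ m → ∀ b : ι → ℕ, ∑ i, b i + k = m → TC ex f p b = 0 := by
    intro k
    induction k with
    | zero =>
      intro _ b hb
      exact h b (by omega)
    | succ k ih =>
      intro hk b hb
      have h1 := euler_TC ex d hE f p b
      have h2 : ∑ k, ((b k + 1 : ℕ) : ℂ) * p k * TC ex f p (b + Pi.single k 1) = 0 := by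
        refine sum_eq_zero fun l _ => ?_
        rw [ih (by omega) (b + Pi.single l 1), mul_zero]
        have h3 : ∑ i, (b + Pi.single l 1 : ι → ℕ) i = ∑ i, b i + 1 := by
          simp [sum_add_distrib]
        omega
      rw [h2] at h1
      rcases mul_eq_zero.1 h1.symm with h3 | h3
      · exfalso
        have h4 : (d : ℂ) = ((∑ i, b i : ℕ) : ℂ) := sub_eq_zero.1 h3
        have h5 : d = ∑ i, b i := by exact_mod_cast h4
        omega
      · exact h3
  intro b hb
  exact key (m - ∑ i, b i) (by omega) b (by omega)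

theorem swap_num {R : Type*} [CommRing R] (B A : ℕ) (x : R) :
    ((B + 1 : ℕ) : R) * (((B.choose A : ℕ) : R) * x ^ (B - A)) =
      ((A + 1 : ℕ) : R) * ((((B + 1).choose (A + 1) : ℕ) : R) * x ^ (B + 1 - (A + 1))) := by
  have h1 : B + 1 - (A + 1) = B - A := by omega
  have h2 : (((B + 1 : ℕ) : R) * ((B.choose A : ℕ) : R)) =
      (((B + 1).choose (A + 1) : ℕ) : R) * ((A + 1 : ℕ) : R) := by
    rw [← Nat.cast_mul, ← Nat.cast_mul, Nat.add_one_mul_choose_eq]
  rw [h1]
  linear_combination x ^ (B - A) * h2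

theorem swap_one {R : Type*} [CommRing R] (v : ι → R) (b a : ι → ℕ) (l : ι) :
    ((b l + 1 : ℕ) : R) * tcr v b a =
      ((a l + 1 : ℕ) : R) * tcr v (b + Pi.single l 1) (a + Pi.single l 1) := by
  rw [tcr_split v b a l, tcr_split v (b + Pi.single l 1) (a + Pi.single l 1) l]
  have h1 : (b + Pi.single l 1 : ι → ℕ) l = b l + 1 := by simp
  have h1' : (a + Pi.single l 1 : ι → ℕ) l = a l + 1 := by simp
  have h2 : ∏ i ∈ univ.erase l, (((((b + Pi.single l 1 : ι → ℕ) i)).choose
      ((a + Pi.single l 1 : ι → ℕ) i) : ℕ) : R) *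
      v i ^ ((b + Pi.single l 1 : ι → ℕ) i - (a + Pi.single l 1 : ι → ℕ) i) =
      ∏ i ∈ univ.erase l, (((b i).choose (a i) : ℕ) : R) * v i ^ (b i - a i) := by
    refine prod_congr rfl fun i hi => ?_
    rw [Pi.add_apply, Pi.add_apply, Pi.single_eq_of_ne (ne_of_mem_erase hi), Nat.add_zero,
      Nat.add_zero]
  rw [h2, h1, h1']
  have h3 := swap_num (b l) (a l) (v l)
  linear_combination (∏ i ∈ univ.erase l, (((b i).choose (a i) : ℕ) : R) * v i ^ (b i - a i)) * h3

/-- Euler's relation for the swapped conditions. -/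
theorem euler_SC (d N m : ℕ) (hE : ∀ e, ∑ i, ex e i = d) (hN : d < N) (hmd : m < d) (f : E → ℂ)
    (p v : ι → ℂ) (a : ι → ℕ) :
    ∑ k, ((a k + 1 : ℕ) : ℂ) * p k * SC ex N (m + 1) f p v (a + Pi.single k 1) =
      ((d : ℂ) - (m : ℂ)) * SC ex N m f p v a := by
  have hsum : ∀ (b : ι → ℕ) (k : ι), ∑ i, (b + Pi.single k 1 : ι → ℕ) i = ∑ i, b i + 1 := by
    intro b k
    simp [sum_add_distrib]
  have h1 : ∀ k : ι, ∑ b ∈ bxd ι N m, tcr v (b + Pi.single k 1) (a + Pi.single k 1) *
      TC ex f p (b + Pi.single k 1) = SC ex N (m + 1) f p v (a + Pi.single k 1) := by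
    intro k
    unfold SC
    refine sum_of_injOn (fun b => b + Pi.single k 1) ?_ ?_ ?_ ?_
    · intro b _ b' _ h
      exact add_right_cancel h
    · intro b hb
      rw [mem_coe] at hb ⊢
      unfold bxd at hb ⊢
      rw [mem_filter, mem_bx] at hb ⊢
      have h2 : ∀ i, (b + Pi.single k 1 : ι → ℕ) i ≤ ∑ i, (b + Pi.single k 1 : ι → ℕ) i := fun i =>
        single_le_sum (f := (b + Pi.single k 1 : ι → ℕ)) (fun _ _ => Nat.zero_le _) (mem_univ i)
      have h3 := hsum b k
      refine ⟨fun i => ?_, ?_⟩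
      · have := h2 i
        have := hb.2
        show (b + Pi.single k 1 : ι → ℕ) i < N
        omega
      · show ∑ i, (b + Pi.single k 1 : ι → ℕ) i = m + 1
        rw [h3, hb.2]
    · intro b' hb' hn
      unfold bxd at hb'
      rw [mem_filter, mem_bx] at hb'
      by_cases hk : b' k = 0
      · have h2 : tcr v b' (a + Pi.single k 1) = 0 := by
          refine tcr_eq_zero _ _ _ fun h => ?_
          have h3 := h k
          rw [hk, Pi.add_apply, Pi.single_eq_same] at h3
          omega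
        rw [h2, zero_mul]
      · exfalso
        apply hn
        have h4 : (b' - Pi.single k 1 : ι → ℕ) + Pi.single k 1 = b' := by
          funext i
          rw [Pi.add_apply, Pi.sub_apply]
          by_cases hi : i = k
          · subst hi
            rw [Pi.single_eq_same]
            omega
          · rw [Pi.single_eq_of_ne hi]
            omega
        refine ⟨b' - Pi.single k 1, ?_, h4⟩
        rw [mem_coe]
        unfold bxd
        rw [mem_filter, mem_bx]
        have h5 := hsum (b' - Pi.single k 1) k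
        rw [h4] at h5
        refine ⟨fun i => ?_, by omega⟩
        have := hb'.1 i
        rw [Pi.sub_apply]
        omega
    · intro b _
      rfl
  have h2 : ((d : ℂ) - (m : ℂ)) * SC ex N m f p v a =
      ∑ b ∈ bxd ι N m, tcr v b a * (((d : ℂ) - ((∑ i, b i : ℕ) : ℂ)) * TC ex f p b) := by
    unfold SC
    rw [mul_sum]
    refine sum_congr rfl fun b hb => ?_
    unfold bxd at hb
    rw [mem_filter] at hb
    rw [hb.2]
    ring
  rw [h2]
  have h3 : ∀ b ∈ bxd ι N m, tcr v b a * (((d : ℂ) - ((∑ i, b i : ℕ) : ℂ)) * TC ex f p b) =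
      ∑ k, ((a k + 1 : ℕ) : ℂ) * p k * (tcr v (b + Pi.single k 1) (a + Pi.single k 1) *
        TC ex f p (b + Pi.single k 1)) := by
    intro b _
    rw [← euler_TC ex d hE f p b, mul_sum]
    refine sum_congr rfl fun k _ => ?_
    have h4 := swap_one v b a k
    linear_combination (p k * TC ex f p (b + Pi.single k 1)) * h4
  rw [sum_congr rfl h3, sum_comm]
  refine sum_congr rfl fun k _ => ?_
  rw [← h1 k, mul_sum]

end

end Pool.Agent.H54.V7
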