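import Pool.Agent.H54.V7.Red

/-!
# Counting the conditions
-/

namespace Pool.Agent.H54.V7

open Finset Pool.Agent.H18.Ex

/-- The number of exponents of degree `s` in `n` variables which meet `k` given disjoint blocks of
size `c`. -/
def bbc (c s : ℕ) : ℕ → ℕ → ℕ
  | 0, n => (n + s - 1).choose s
  | k + 1, n => bbc c s k n - bbc c s k (n - c)

section

set_option linter.unusedSectionVars false

variable {ι : Type} [Fintype ι] [DecidableEq ι] {κ : Type} [DecidableEq κ]

/-- The exponents of degree `s` in the variables of `S` which meet the blocks of `I`. -/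
def mset (blk : κ → Finset ι) (S : Finset ι) (I : Finset κ) (s : ℕ) : Finset (ι → ℕ) :=
  (piAntidiag S s).filter fun b => ∀ i ∈ I, ¬ ∀ x ∈ blk i, b x = 0

theorem mem_mset {blk : κ → Finset ι} {S : Finset ι} {I : Finset κ} {s : ℕ} {b : ι → ℕ} :
    b ∈ mset blk S I s ↔ (∑ x, b x = s ∧ ∀ x, b x ≠ 0 → x ∈ S) ∧
      ∀ i ∈ I, ¬ ∀ x ∈ blk i, b x = 0 := by
  unfold mset
  rw [mem_filter, mem_piAntidiag]
  constructor
  · rintro ⟨⟨h1, h2⟩, h3⟩
    refine ⟨⟨?_, h2⟩, h3⟩
    rw [← h1]
    symm
    refine sum_subset (subset_univ S) fun x _ hx => ?_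
    by_contra h
    exact hx (h2 x h)
  · rintro ⟨⟨h1, h2⟩, h3⟩
    refine ⟨⟨?_, h2⟩, h3⟩
    rw [← h1]
    refine sum_subset (subset_univ S) fun x _ hx => ?_
    by_contra h
    exact hx (h2 x h)

theorem mset_mono (blk : κ → Finset ι) {S S' : Finset ι} (h : S ⊆ S') (I : Finset κ) (s : ℕ) :
    mset blk S I s ⊆ mset blk S' I s := by
  intro b hb
  rw [mem_mset] at hb ⊢
  exact ⟨⟨hb.1.1, fun x hx => h (hb.1.2 x hx)⟩, hb.2⟩

theorem card_mset_insert (blk : κ → Finset ι) (S : Finset ι) (I : Finset κ) (i : κ) (s : ℕ) :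
    (mset blk S (insert i I) s).card + (mset blk (S \ blk i) I s).card =
      (mset blk S I s).card := by
  have h1 : mset blk S I s = mset blk S (insert i I) s ∪ mset blk (S \ blk i) I s := by
    ext b
    rw [mem_union, mem_mset, mem_mset, mem_mset]
    constructor
    · rintro ⟨⟨h1, h2⟩, h3⟩
      by_cases h4 : ∀ x ∈ blk i, b x = 0
      · right
        refine ⟨⟨h1, fun x hx => ?_⟩, h3⟩
        rw [mem_sdiff]
        exact ⟨h2 x hx, fun h => hx (h4 x h)⟩
      · left
        refine ⟨⟨h1, h2⟩, fun k hk => ?_⟩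
        rcases mem_insert.1 hk with h5 | h5
        · rw [h5]
          exact h4
        · exact h3 k h5
    · rintro (⟨⟨h1, h2⟩, h3⟩ | ⟨⟨h1, h2⟩, h3⟩)
      · exact ⟨⟨h1, h2⟩, fun k hk => h3 k (mem_insert_of_mem hk)⟩
      · exact ⟨⟨h1, fun x hx => (mem_sdiff.1 (h2 x hx)).1⟩, h3⟩
  have h2 : Disjoint (mset blk S (insert i I) s) (mset blk (S \ blk i) I s) := by
    rw [disjoint_left]
    intro b hb hb'
    rw [mem_mset] at hb hb'
    refine hb.2 i (mem_insert_self i I) fun x hx => ?_
    by_contra h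
    exact (mem_sdiff.1 (hb'.1.2 x h)).2 hx
  rw [h1, card_union_of_disjoint h2]

theorem card_piAnti (S : Finset ι) (s : ℕ) :
    (piAntidiag S s).card = (S.card + s - 1).choose s := by
  rw [← card_finsuppAntidiag_nat_eq_choose]
  refine card_bij (fun b _ => Finsupp.equivFunOnFinite.symm b) ?_ ?_ ?_
  · intro b hb
    rw [mem_piAntidiag] at hb
    rw [mem_finsuppAntidiag]
    refine ⟨hb.1, fun x hx => ?_⟩
    rw [Finsupp.mem_support_iff] at hx
    exact hb.2 x hx
  · intro b _ b' _ h
    exact Finsupp.equivFunOnFinite.symm.injective h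
  · intro b hb
    rw [mem_finsuppAntidiag] at hb
    refine ⟨Finsupp.equivFunOnFinite b, ?_, Finsupp.equivFunOnFinite.symm_apply_apply b⟩
    rw [mem_piAntidiag]
    refine ⟨hb.1, fun x hx => hb.2 ?_⟩
    rw [Finsupp.mem_support_iff]
    exact hx

theorem card_mset (blk : κ → Finset ι) (c s : ℕ) (I : Finset κ) :
    ∀ S : Finset ι, (∀ i ∈ I, blk i ⊆ S ∧ (blk i).card = c) →
      (∀ i ∈ I, ∀ k ∈ I, i ≠ k → Disjoint (blk i) (blk k)) →
      (mset blk S I s).card = bbc c s I.card S.card := by
  induction I using Finset.induction_on with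
  | empty =>
    intro S _ _
    have h1 : mset blk S ∅ s = piAntidiag S s := by
      unfold mset
      rw [filter_true_of_mem]
      intro b _ i hi
      exact absurd hi (notMem_empty i)
    rw [h1, card_piAnti, card_empty]
    rfl
  | insert i I hi ih =>
    intro S hS hd
    have h1 := card_mset_insert blk S I i s
    rw [ih S (fun k hk => hS k (mem_insert_of_mem hk))
      (fun k hk l hl => hd k (mem_insert_of_mem hk) l (mem_insert_of_mem hl)),
      ih (S \ blk i) (fun k hk => ⟨fun x hx => mem_sdiff.2 ⟨(hS k (mem_insert_of_mem hk)).1 hx,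
        fun h => disjoint_left.1 (hd k (mem_insert_of_mem hk) i (mem_insert_self i I)
          (fun h => hi (h ▸ hk))) hx h⟩, (hS k (mem_insert_of_mem hk)).2⟩)
      (fun k hk l hl => hd k (mem_insert_of_mem hk) l (mem_insert_of_mem hl))] at h1
    rw [card_sdiff_of_subset (hS i (mem_insert_self i I)).1,
      (hS i (mem_insert_self i I)).2] at h1
    rw [card_insert_of_notMem hi]
    show _ = bbc c s I.card S.card - bbc c s I.card (S.card - c)
    omega

end

end Pool.Agent.H54.V7
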