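import Pool.Agent.H54.V7.Eul

/-!
# Reduction of the conditions to few of them
-/

namespace Pool.Agent.H54.V7

open Finset Pool.Agent.H18.Ex

section

set_option linter.unusedSectionVars false

variable {ι : Type} [Fintype ι] [DecidableEq ι] {E : Type} [Fintype E] (ex : E → ι → ℕ)

theorem fat_iff (M : ℕ) (p : ι → ℂ) (f : E → ℂ) :
    Fat ex M p f ↔ ∀ b : ι → ℕ, ∑ i, b i < M → TC ex f p b = 0 := Iff.rfl

theorem sw_iff (M N : ℕ) (B : Finset ι) (p v : ι → ℂ) (f : E → ℂ) :
    Sw ex M N B p v f ↔ ∀ a : ι → ℕ, (∀ i ∈ B, a i = 0) → 1 ≤ ∑ i, a i → ∑ i, a i ≤ M →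
      SC ex N M f p v a = 0 := Iff.rfl

/-- A Taylor coefficient which misses a block met by all monomials. -/
theorem TC_miss (s : Finset ι) (hs : ∀ e, ¬ ∀ i ∈ s, ex e i = 0) (f : E → ℂ) (p : ι → ℂ)
    (hp : ∀ i ∈ s, p i = 0) (b : ι → ℕ) (hb : ∀ i ∈ s, b i = 0) : TC ex f p b = 0 := by
  unfold TC
  refine sum_eq_zero fun e _ => ?_
  rw [tcr_off s p hp (ex e) b hb (hs e), mul_zero]

/-- A swapped condition which misses a block met by all monomials. -/
theorem SC_miss (N m : ℕ) (s : Finset ι) (hs : ∀ e, ¬ ∀ i ∈ s, ex e i = 0) (f : E → ℂ)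
    (p v : ι → ℂ) (hp : ∀ i ∈ s, p i = 0) (hv : ∀ i ∈ s, v i = 0) (a : ι → ℕ)
    (ha : ∀ i ∈ s, a i = 0) : SC ex N m f p v a = 0 := by
  unfold SC
  refine sum_eq_zero fun b _ => ?_
  by_cases hb : ∀ i ∈ s, b i = 0
  · rw [TC_miss ex s hs f p hp b hb, mul_zero]
  · rw [tcr_off s v hv b a ha hb, zero_mul]

/-- A swapped condition of top order is a Taylor coefficient. -/
theorem SC_top (N m : ℕ) (f : E → ℂ) (p v : ι → ℂ) (a : ι → ℕ) (ha : ∑ i, a i = m)
    (h0 : TC ex f p a = 0) : SC ex N m f p v a = 0 := by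
  unfold SC
  refine sum_eq_zero fun b hb => ?_
  unfold bxd at hb
  rw [mem_filter] at hb
  by_cases hab : ∀ i, a i ≤ b i
  · rw [tcr_self v b a hab (by omega)]
    split_ifs with h
    · rw [h, h0, mul_zero]
    · rw [zero_mul]
  · rw [tcr_eq_zero _ _ _ hab, zero_mul]

/-- The swapped conditions follow from those without the variable `s₀`. -/
theorem SC_reduce (d N M : ℕ) (hE : ∀ e, ∑ i, ex e i = d) (hN : d < N) (hM : M ≤ d)
    (f : E → ℂ) (p v : ι → ℂ) (B : Finset ι) (hpB : ∀ i ∈ B, p i = 0) (s₀ : ι) (hsB : s₀ ∉ B)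
    (hps : p s₀ ≠ 0) (hfat : ∀ b : ι → ℕ, ∑ i, b i < M → TC ex f p b = 0)
    (h0 : ∀ a : ι → ℕ, (∀ i ∈ B, a i = 0) → a s₀ = 0 → 1 ≤ ∑ i, a i → ∑ i, a i < M →
      SC ex N M f p v a = 0) :
    ∀ a : ι → ℕ, (∀ i ∈ B, a i = 0) → 1 ≤ ∑ i, a i → ∑ i, a i < M →
      SC ex N M f p v a = 0 := by
  have key : ∀ k : ℕ, ∀ a : ι → ℕ, (∀ i ∈ B, a i = 0) → a s₀ = k → 1 ≤ ∑ i, a i →
      ∑ i, a i < M → SC ex N M f p v a = 0 := by
    intro k
    induction k with
    | zero =>
      intro a ha h1 h2 h3
      exact h0 a ha h1 h2 h3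
    | succ k ih =>
      intro a ha h1 h2 h3
      set a' : ι → ℕ := a - Pi.single s₀ 1 with ha'
      have haa : a' + Pi.single s₀ 1 = a := by
        funext i
        rw [ha', Pi.add_apply, Pi.sub_apply]
        by_cases hi : i = s₀
        · subst hi
          rw [Pi.single_eq_same]
          omega
        · rw [Pi.single_eq_of_ne hi]
          omega
      have hsum : ∀ k : ι, ∑ i, (a' + Pi.single k 1 : ι → ℕ) i = ∑ i, a i := by
        intro k
        have h4 : ∀ l : ι, ∑ i, (a' + Pi.single l 1 : ι → ℕ) i = ∑ i, a' i + 1 := by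
          intro l
          simp [sum_add_distrib]
        rw [h4 k, ← h4 s₀, haa]
      have h4 := euler_SC ex d N (M - 1) hE hN (by omega) f p v a'
      have h5 : M - 1 + 1 = M := by omega
      have h6 : SC ex N (M - 1) f p v a' = 0 := by
        unfold SC
        refine sum_eq_zero fun b hb => ?_
        unfold bxd at hb
        rw [mem_filter] at hb
        rw [hfat b (by omega), mul_zero]
      rw [h5, h6, mul_zero] at h4
      rw [sum_eq_single s₀] at h4
      · rw [haa] at h4
        rcases mul_eq_zero.1 h4 with h7 | h7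
        · rcases mul_eq_zero.1 h7 with h8 | h8
          · exact absurd h8 (Nat.cast_ne_zero.2 (Nat.succ_ne_zero _))
          · exact absurd h8 hps
        · exact h7
      · intro l _ hl
        by_cases hlB : l ∈ B
        · rw [hpB l hlB, mul_zero, zero_mul]
        · rw [ih (a' + Pi.single l 1) ?_ ?_ ?_ ?_, mul_zero]
          · intro i hi
            have h7 : i ≠ l := fun h => hlB (h ▸ hi)
            have h8 : i ≠ s₀ := fun h => hsB (h ▸ hi)
            rw [Pi.add_apply, Pi.single_eq_of_ne h7, Nat.add_zero, ha', Pi.sub_apply,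
              Pi.single_eq_of_ne h8, Nat.sub_zero]
            exact ha i hi
          · rw [Pi.add_apply, Pi.single_eq_of_ne (Ne.symm hl), Nat.add_zero, ha', Pi.sub_apply,
              Pi.single_eq_same, h1]
            omega
          · rw [hsum l]
            exact h2
          · rw [hsum l]
            exact h3
      · intro h
        exact absurd (mem_univ s₀) h
  intro a ha h1 h2
  exact key (a s₀) a ha rfl h1 h2

/-- Finitely many linear conditions lower the dimension by at most their number. -/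
theorem finrank_le_add {κ : Type} (V V' : Submodule ℂ (E → ℂ)) (s : Finset κ)
    (c : κ → E → ℂ) (h : ∀ f ∈ V, (∀ r ∈ s, ∑ e, c r e * f e = 0) → f ∈ V') :
    Module.finrank ℂ V ≤ Module.finrank ℂ V' + s.card := by
  classical
  let L : (E → ℂ) →ₗ[ℂ] (s → ℂ) := LinearMap.pi fun r => ∑ e, c r.1 e • LinearMap.proj e
  have hL : ∀ f r, L f r = ∑ e, c r.1 e * f e := by
    intro f r
    simp [L]
  let L' : V →ₗ[ℂ] (s → ℂ) := L ∘ₗ V.subtype
  have h1 := LinearMap.finrank_range_add_finrank_ker L'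
  have h2 : Module.finrank ℂ (LinearMap.range L') ≤ s.card := by
    have h3 := Submodule.finrank_le (LinearMap.range L')
    rw [Module.finrank_fintype_fun_eq_card, Fintype.card_coe] at h3
    exact h3
  have h3 : Module.finrank ℂ (LinearMap.ker L') ≤ Module.finrank ℂ V' := by
    let g : LinearMap.ker L' →ₗ[ℂ] V' :=
      { toFun := fun x => ⟨x.1.1, h x.1.1 x.1.2 (by
          intro r hr
          have h4 : L x.1.1 = 0 := x.2
          have h5 := congrFun h4 ⟨r, hr⟩
          rw [hL] at h5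
          exact h5)⟩
        map_add' := fun _ _ => rfl
        map_smul' := fun _ _ => rfl }
    refine LinearMap.finrank_le_finrank_of_injective (f := g) ?_
    intro x y hxy
    have h4 : (g x).1 = (g y).1 := congrArg Subtype.val hxy
    apply Subtype.ext
    apply Subtype.ext
    exact h4
  omega

end

end Pool.Agent.H54.V7
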